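import Pool.Agent.H63.TC.Stmts

/-!
# Project TC: modules SWP, CPT, DER, HMT
-/

open Complex Metric Set Filter Topology

namespace Pool.Agent.H63.TC

/-- SWP -/
theorem swp : SwpStmt := by
  intro V _ A ξ hξ K hK ε hε
  obtain ⟨F, hF, s, hs0, hs1, hcl, hb⟩ := hξ K hK ε hε
  refine ⟨F, ⟨hF.1, ?_⟩, s, hs0, hs1, ?_, ?_⟩
  · intro p
    have h1 := hF.2 p
    have h2 : DifferentiableAt ℂ (fun m : ℂ × ℂ => m.swap) (A.E p).swap := by
      have : (fun m : ℂ × ℂ => m.swap) = (fun m : ℂ × ℂ => (m.2, m.1)) := rfl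
      rw [this]
      fun_prop
    have h3 : DifferentiableAt ℂ (fun m => A.E (F (A.sec p m))) ((A.E p).swap.swap) := by
      rw [Prod.swap_swap]; exact h1
    have h4 : DifferentiableAt ℂ (fun m => A.E (F (A.sec p m.swap))) (A.E p).swap :=
      DifferentiableAt.comp (g := fun m => A.E (F (A.sec p m))) (f := fun m : ℂ × ℂ => m.swap)
        (A.E p).swap h3 h2
    have h5 : DifferentiableAt ℂ (fun m => (A.E (F (A.sec p m.swap))).swap) (A.E p).swap := by
      have e1 : DifferentiableAt ℂ (fun m => (A.E (F (A.sec p m.swap))).2) (A.E p).swap := h4.snd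
      have e2 : DifferentiableAt ℂ (fun m => (A.E (F (A.sec p m.swap))).1) (A.E p).swap := h4.fst
      exact e1.prodMk e2
    exact h5
  · intro p hp
    obtain ⟨a, b, c⟩ := hcl p hp
    refine ⟨?_, ?_, ?_⟩
    · rw [Atlas.swap_E, Atlas.swap_E, ← Prod.swap_sub, norm_swap]; exact a
    · rw [Atlas.swap_E, Atlas.swap_E, ← Prod.swap_sub, norm_swap, dd_swap]; exact b
    · rw [Atlas.swap_E, Atlas.swap_sec, Prod.swap_swap]; exact c
  · intro p hp
    have := hb p hp
    rw [Atlas.swap_E, Atlas.swap_E, ← Prod.swap_sub]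
    have e : (A.E (F p) - A.E p).swap - (s : ℂ) • (ξ p).swap
        = (A.E (F p) - A.E p - (s : ℂ) • ξ p).swap := by
      ext <;> simp
    rw [e, norm_swap]
    exact this

/-- CPT -/
theorem cpt (hbnd : BndStmt) (hmon : MonStmt) (hccl : CclStmt) (hcho : ChoStmt) : CptStmt := by
  intro V _ _ A K₀ hK₀ l f M hf hb
  obtain ⟨ξ, -, h2⟩ := hmon V A l f (fun n => hcho V A (f n) (hf n)) (by
    intro K hK
    obtain ⟨C, hC⟩ := hbnd V A K₀ K hK₀ hK
    exact ⟨C * M, fun n p hp => hC (f n) (hf n) M (hb n) p hp⟩)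
  exact ⟨ξ, (hccl V A).1 ℕ l f ξ l.neBot hf h2, h2⟩

/-- DER -/
theorem der : DerStmt := by
  intro V _ A F _ _ f ι l G s v p hf hs hs0 hG hlim
  have h1 : HasFDerivWithinAt (fun m => f (A.sec p m))
      (fderiv ℂ (fun m => f (A.sec p m)) (A.E p)) univ (A.E p) :=
    (hf p).hasFDerivAt.hasFDerivWithinAt
  have h0 : Tendsto (fun i => A.E (G i) - A.E p) l (𝓝 0) := by
    have hs1 : Tendsto (fun i => (s i : ℂ)) l (𝓝 0) := by
      have := (Complex.continuous_ofReal.tendsto 0).comp hs0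
      simpa [Function.comp_def] using this
    have h := hs1.smul hlim
    rw [zero_smul] at h
    refine h.congr ?_
    intro i
    have : (s i : ℂ) ≠ 0 := by exact_mod_cast (hs i).ne'
    rw [smul_smul, mul_inv_cancel₀ this, one_smul]
  have h2 := h1.lim (c := fun i => ((s i : ℂ))⁻¹) (d := fun i => A.E (G i) - A.E p) (v := v) (l := l)
    h0 (by simp) hlim
  refine h2.congr' ?_
  filter_upwards [hG] with i hi
  rw [add_sub_cancel, hi, A.sec_self]

/-- HMT -/
theorem hmt_aux {V : Type} [TopologicalSpace V] (A : Atlas V) (p₀ : V) :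
    ∀ᶠ x : V × V in 𝓝 (p₀, p₀), A.sec x.1 (A.E x.2) = x.2 := by
  have hd := A.dd_pos p₀
  have hcE := A.cont_E
  have h1 : ∀ᶠ x : V × V in 𝓝 (p₀, p₀), A.sec p₀ (A.E x.1) = x.1 :=
    (continuous_fst.continuousAt (x := (p₀, p₀))).eventually (A.near p₀)
  have h2 : ∀ᶠ x : V × V in 𝓝 (p₀, p₀), A.sec p₀ (A.E x.2) = x.2 :=
    (continuous_snd.continuousAt (x := (p₀, p₀))).eventually (A.near p₀)
  have h3 : ∀ᶠ x : V × V in 𝓝 (p₀, p₀), A.E x.1 ∈ ball (A.E p₀) (TC.dd (A.E p₀)) := by
    have : ContinuousAt (fun x : V × V => A.E x.1) (p₀, p₀) := by fun_prop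
    exact this.eventually (isOpen_ball.mem_nhds (A.self_mem p₀))
  have h4 : ∀ᶠ x : V × V in 𝓝 (p₀, p₀), A.E x.2 ∈ ball (A.E p₀) (TC.dd (A.E p₀)) := by
    have : ContinuousAt (fun x : V × V => A.E x.2) (p₀, p₀) := by fun_prop
    exact this.eventually (isOpen_ball.mem_nhds (A.self_mem p₀))
  have h5 : ∀ᶠ x : V × V in 𝓝 (p₀, p₀), dist (A.E x.2) (A.E x.1) < TC.dd (A.E x.1) := by
    have c1 : ContinuousAt (fun x : V × V => dist (A.E x.2) (A.E x.1)) (p₀, p₀) := by fun_prop
    have c2 : ContinuousAt (fun x : V × V => TC.dd (A.E x.1)) (p₀, p₀) := by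
      have := continuous_dd
      fun_prop
    refine c1.eventually_lt c2 ?_
    simpa using hd
  filter_upwards [h1, h2, h3, h4, h5] with x a b c d e
  have := A.sec_sec c d e
  rw [a] at this
  rw [this, b]

theorem hmt : HmtStmt := by
  intro V _ _ A G v₀ hG h0 h1 hhol
  classical
  have : Nonempty V := ⟨v₀⟩
  have hT2 := A.t2
  -- two points
  obtain ⟨w₁, w₂, hw⟩ : ∃ w₁ w₂ : V, w₁ ≠ w₂ := by
    have hd := A.dd_pos v₀
    set m : ℂ × ℂ := A.E v₀ + ((((TC.dd (A.E v₀) / 2 : ℝ) : ℂ), (0 : ℂ)) : ℂ × ℂ) with hm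
    have hmb : m ∈ ball (A.E v₀) (TC.dd (A.E v₀)) := by
      rw [mem_ball, dist_eq_norm, hm, add_sub_cancel_left, Prod.norm_def]
      simp only [norm_zero]
      rw [Complex.norm_real, Real.norm_eq_abs, abs_of_pos (by linarith)]
      rw [max_eq_left (by linarith)]
      linarith
    refine ⟨v₀, A.sec v₀ m, fun h => ?_⟩
    have h2 := A.E_sec v₀ m hmb
    rw [← h] at h2
    have h3 := congrArg Prod.fst h2
    rw [hm] at h3
    simp only [Prod.fst_add] at h3
    have h4 : ((TC.dd (A.E v₀) / 2 : ℝ) : ℂ) = 0 := by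
      have := sub_eq_zero.2 h3
      simpa using this
    have h5 : TC.dd (A.E v₀) / 2 = 0 := by exact_mod_cast h4
    linarith
  let S : Set unitInterval := {t | ∀ s ≤ t, ∀ v, G (v, s) = v}
  have hS0 : (0 : unitInterval) ∈ S := by
    intro s hs v
    have : s = 0 := le_antisymm hs s.2.1
    rw [this, h0]
  set T := sSup S with hT
  have hlt : ∀ s < T, ∀ v, G (v, s) = v := by
    intro s hs v
    obtain ⟨t, ht, hst⟩ := exists_lt_of_lt_csSup ⟨0, hS0⟩ hs
    exact ht s hst.le v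
  have hGT : ∀ v, G (v, T) = v := by
    intro v
    by_cases hT0 : T = 0
    · rw [hT0, h0]
    · have hcl : IsClosed {s : unitInterval | G (v, s) = v} := by
        have : Continuous fun s : unitInterval => G (v, s) := by fun_prop
        exact isClosed_eq this continuous_const
      have hsub : Iio T ⊆ {s : unitInterval | G (v, s) = v} := fun s hs => hlt s hs v
      have hTpos : 0 < T := lt_of_le_of_ne T.2.1 (Ne.symm hT0)
      have h2 : closure (Iio T) ⊆ {s : unitInterval | G (v, s) = v} :=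
        closure_minimal hsub hcl
      have h3 : closure (Iio T) = Iic T := closure_Iio' ⟨0, hTpos⟩
      rw [h3] at h2
      exact h2 (mem_Iic.2 le_rfl)
  have hT1 : T < 1 := by
    refine lt_of_le_of_ne T.2.2 ?_
    intro h
    have e1 := hGT w₁
    have e2 := hGT w₂
    rw [h, h1] at e1 e2
    exact hw (e1.symm.trans e2)
  -- the sequence
  have hseq : ∀ n : ℕ, ∃ t : unitInterval, dist t T < 1 / (n + 1 : ℝ) ∧ ∃ p, G (p, t) ≠ p := by
    intro n
    by_contra hcon
    push Not at hcon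
    obtain ⟨δ, hδ, hδT⟩ : ∃ δ : unitInterval, T < δ ∧ dist δ T < 1 / (n + 1 : ℝ) := by
      have hpos : (0 : ℝ) < 1 / (n + 1 : ℝ) := by positivity
      have hT1' : (T : ℝ) < 1 := hT1
      refine ⟨⟨(T : ℝ) + min (1 / (n + 1 : ℝ)) (1 - T) / 2, ?_, ?_⟩, ?_, ?_⟩
      · have := T.2.1
        have h3 : 0 < min (1 / (n + 1 : ℝ)) (1 - (T : ℝ)) := lt_min hpos (by linarith)
        linarith
      · have h3 : min (1 / (n + 1 : ℝ)) (1 - (T : ℝ)) ≤ 1 - T := min_le_right _ _
        linarith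
      · have h3 : 0 < min (1 / (n + 1 : ℝ)) (1 - (T : ℝ)) := lt_min hpos (by linarith)
        show (T : ℝ) < (T : ℝ) + _
        linarith
      · have h3 : 0 < min (1 / (n + 1 : ℝ)) (1 - (T : ℝ)) := lt_min hpos (by linarith)
        have h4 : min (1 / (n + 1 : ℝ)) (1 - (T : ℝ)) ≤ 1 / (n + 1 : ℝ) := min_le_left _ _
        rw [Subtype.dist_eq, Real.dist_eq]
        simp only [add_sub_cancel_left]
        rw [abs_of_pos (by linarith)]
        linarith
    have : δ ∈ S := by
      intro s hs v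
      rcases lt_trichotomy s T with h | h | h
      · exact hlt s h v
      · rw [h]; exact hGT v
      · refine hcon s ?_ v
        refine lt_of_le_of_lt ?_ hδT
        rw [Subtype.dist_eq, Subtype.dist_eq, Real.dist_eq, Real.dist_eq]
        have h1 : (T : ℝ) < s := h
        have h2 : (s : ℝ) ≤ δ := hs
        rw [abs_of_pos (by linarith), abs_of_pos (by linarith)]
        linarith
    have h5 : δ ≤ T := le_csSup ⟨1, fun x _ => x.2.2⟩ this
    exact absurd hδ (not_lt.2 h5)
  choose t ht hne using hseq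
  have htT : Tendsto t atTop (𝓝 T) := by
    rw [tendsto_iff_dist_tendsto_zero]
    refine squeeze_zero (fun _ => dist_nonneg) (fun n => (ht n).le) ?_
    exact tendsto_one_div_add_atTop_nhds_zero_nat
  refine ⟨fun n v => G (v, t n), fun n => hhol (t n), ?_, hne⟩
  intro K hK c hc
  have key : ∀ᶠ s in 𝓝 T, ∀ p ∈ K, ‖A.E (G (p, s)) - A.E p‖ ≤ c ∧
      ‖A.E (G (p, s)) - A.E p‖ < TC.dd (A.E p) ∧ A.sec p (A.E (G (p, s))) = G (p, s) := by
    refine hK.eventually_forall_of_forall_eventually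
      (P := fun s p => ‖A.E (G (p, s)) - A.E p‖ ≤ c ∧
      ‖A.E (G (p, s)) - A.E p‖ < TC.dd (A.E p) ∧ A.sec p (A.E (G (p, s))) = G (p, s)) ?_
    intro p₀ _
    have hcE := A.cont_E
    have hdd := continuous_dd
    have c1 : ContinuousAt (fun z : unitInterval × V => ‖A.E (G (z.2, z.1)) - A.E z.2‖) (T, p₀) := by
      fun_prop
    have c2 : ContinuousAt (fun z : unitInterval × V => TC.dd (A.E z.2)) (T, p₀) := by fun_prop
    have e1 : ∀ᶠ z : unitInterval × V in 𝓝 (T, p₀), ‖A.E (G (z.2, z.1)) - A.E z.2‖ < c := by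
      refine c1.eventually_lt continuousAt_const ?_
      simp [hGT, hc]
    have e2 : ∀ᶠ z : unitInterval × V in 𝓝 (T, p₀),
        ‖A.E (G (z.2, z.1)) - A.E z.2‖ < TC.dd (A.E z.2) := by
      refine c1.eventually_lt c2 ?_
      simp [hGT, A.dd_pos p₀]
    have c3 : ContinuousAt (fun z : unitInterval × V => (z.2, G (z.2, z.1))) (T, p₀) := by fun_prop
    have e3 : ∀ᶠ z : unitInterval × V in 𝓝 (T, p₀),
        A.sec z.2 (A.E (G (z.2, z.1))) = G (z.2, z.1) := by
      have h := hmt_aux A p₀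
      have h' : Tendsto (fun z : unitInterval × V => (z.2, G (z.2, z.1))) (𝓝 (T, p₀))
          (𝓝 (p₀, p₀)) := by
        have := c3.tendsto
        simpa [hGT] using this
      exact h'.eventually h
    filter_upwards [e1, e2, e3] with z a b c
    exact ⟨a.le, b, c⟩
  have := htT.eventually key
  filter_upwards [this] with n hn
  intro p hp
  exact hn p hp

end Pool.Agent.H63.TC
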