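import Pool.Agent.H63.TC.Stmts

/-!
# Project TC: module CE1
-/

open Complex Metric Set Filter Topology

namespace Pool.Agent.H63.TC

/-- CE1 -/
theorem ce1 (hcpt : CptStmt) (hbnd : BndStmt) (hcho : ChoStmt) (hlmd : LmdStmt) : Ce1Stmt := by
  intro V _ _ A W C h hC hh K hK
  have : Nonempty V := inferInstance
  obtain ⟨v₀⟩ := this
  have hd := A.dd_pos v₀
  set K₀ : Set V := A.sb v₀ (TC.dd (A.E v₀) / 2) with hK₀
  have hK₀c : IsCompact K₀ := A.isCompact_sb v₀ (by linarith)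
  have hK₀n : K₀ ∈ 𝓝 v₀ := A.sb_mem_nhds v₀ (by linarith)
  have hK₀i : (interior K₀).Nonempty := ⟨v₀, mem_interior_iff_mem_nhds.2 hK₀n⟩
  have hK₀ne : K₀.Nonempty := ⟨v₀, mem_of_mem_nhds hK₀n⟩
  have key : ∃ M₀ : ℝ, ∀ ξ, C ξ → (∀ p, W.hh ξ p = h p) → ∀ p ∈ K₀, ‖ξ p‖ ≤ M₀ := by
    by_contra hcon
    push Not at hcon
    choose f hfC hfh p hp hfp using fun n : ℕ => hcon ((n : ℝ) + 1)
    have hmax : ∀ n, ∃ q ∈ K₀, ∀ p ∈ K₀, ‖f n p‖ ≤ ‖f n q‖ := by
      intro n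
      have hcont : Continuous (f n) := (hcho V A (f n) (hC.sub _ (hfC n))).continuous
      obtain ⟨q, hq, hmax⟩ := hK₀c.exists_isMaxOn hK₀ne (hcont.norm.continuousOn)
      exact ⟨q, hq, fun p hp => hmax hp⟩
    choose q hq hqmax using hmax
    have hN : ∀ n : ℕ, (n : ℝ) + 1 < ‖f n (q n)‖ := fun n => (hfp n).trans_le (hqmax n _ (hp n))
    have hN0 : ∀ n, 0 < ‖f n (q n)‖ := fun n => by
      have : (0 : ℝ) ≤ n := n.cast_nonneg
      linarith [hN n]
    let g : ℕ → V → ℂ × ℂ := fun n x => (((‖f n (q n)‖)⁻¹ : ℝ) : ℂ) • f n x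
    have hgn : ∀ n x, ‖g n x‖ = (‖f n (q n)‖)⁻¹ * ‖f n x‖ := by
      intro n x
      simp only [g]
      rw [norm_smul, Complex.norm_real, Real.norm_eq_abs, abs_of_pos (inv_pos.2 (hN0 n))]
    have hgC : ∀ n, C (g n) := fun n => hC.smul _ (hfC n) _ (inv_pos.2 (hN0 n))
    obtain ⟨ξ, -, hlim⟩ := hcpt V A K₀ hK₀i (hyperfilter ℕ) g 1
      (fun n => hC.sub _ (hgC n)) (by
        intro n x hx
        rw [hgn, inv_mul_le_iff₀ (hN0 n), mul_one]
        exact hqmax n x hx)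
    have hCξ : C ξ := hC.closed (hyperfilter ℕ) g ξ hgC hlim
    have hNlim : Tendsto (fun n => (((‖f n (q n)‖)⁻¹ : ℝ) : ℂ)) (hyperfilter ℕ : Filter ℕ) (𝓝 0) := by
      have h1 : Tendsto (fun n : ℕ => ‖f n (q n)‖) atTop atTop := by
        refine tendsto_atTop_mono (fun n => (hN n).le) ?_
        exact tendsto_atTop_add_const_right _ _ tendsto_natCast_atTop_atTop
      have h2 : Tendsto (fun n : ℕ => (‖f n (q n)‖)⁻¹) atTop (𝓝 0) := tendsto_inv_atTop_zero.comp h1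
      have h3 : Tendsto (fun n => (((‖f n (q n)‖)⁻¹ : ℝ) : ℂ)) atTop (𝓝 ((0 : ℝ) : ℂ)) :=
        (Complex.continuous_ofReal.tendsto 0).comp h2
      rw [Complex.ofReal_zero] at h3
      refine h3.mono_left ?_
      rw [← Nat.cofinite_eq_atTop]
      exact hyperfilter_le_cofinite
    have hz : ∀ x, (ξ x).1 = 0 := by
      intro x
      have h1 : Tendsto (fun n => g n x) (hyperfilter ℕ : Filter ℕ) (𝓝 (ξ x)) :=
        (tendstoLocallyUniformlyOn_univ.2 hlim).tendsto_at (mem_univ x)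
      have h2 : Tendsto (fun n => (g n x).1) (hyperfilter ℕ : Filter ℕ) (𝓝 (ξ x).1) :=
        (continuous_fst.tendsto _).comp h1
      have hl : deriv lam (W.W x).1 ≠ 0 := (hlmd _ (W.mem x).1).2
      have h3 : ∀ n, (g n x).1 = (((‖f n (q n)‖)⁻¹ : ℝ) : ℂ) * (h x * deriv lam (W.W x).1) := by
        intro n
        have h4 : (f n x).1 / deriv lam (W.W x).1 = h x := hfh n x
        have h5 : (f n x).1 = h x * deriv lam (W.W x).1 := by
          rw [← h4, div_mul_cancel₀ _ hl]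
        simp only [g, Prod.smul_fst, smul_eq_mul]
        rw [h5]
      have h6 : Tendsto (fun n => (g n x).1) (hyperfilter ℕ : Filter ℕ) (𝓝 0) := by
        simp_rw [h3]
        have := hNlim.mul_const (h x * deriv lam (W.W x).1)
        rwa [zero_mul] at this
      exact tendsto_nhds_unique h2 h6
    have hξ0 : ∀ x, ξ x = 0 := hC.nondeg ξ hCξ hz
    have hunif : TendstoUniformlyOn g ξ (hyperfilter ℕ : Filter ℕ) K₀ := by
      have := A.locallyCompact
      have h1 : TendstoLocallyUniformlyOn g ξ (hyperfilter ℕ : Filter ℕ) K₀ :=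
        hlim.tendstoLocallyUniformlyOn
      exact (tendstoLocallyUniformlyOn_iff_tendstoUniformlyOn_of_compact hK₀c).1 h1
    have hev := (Metric.tendstoUniformlyOn_iff.1 hunif) 1 one_pos
    obtain ⟨n, hn⟩ := hev.exists
    have h7 := hn (q n) (hq n)
    rw [hξ0, dist_zero_left, hgn, inv_mul_cancel₀ (hN0 n).ne'] at h7
    exact lt_irrefl _ h7
  obtain ⟨M₀, hM₀⟩ := key
  obtain ⟨c, hc⟩ := hbnd V A K₀ K hK₀i hK
  exact ⟨c * M₀, fun ξ hξ hhξ x hx => hc ξ (hC.sub _ hξ) M₀ (hM₀ ξ hξ hhξ) x hx⟩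

end Pool.Agent.H63.TC
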